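import Pool.Agent.X298.RP.Main

/-!
# The Ramanujan conjecture over function fields: a certificate at one unramified place

Let `π` be a cuspidal automorphic representation, with unitary central character, of `G(𝔸_k)`, `k` a global function field,
and `r` a representation of the `L`-group, of dimension `N`. `α v j`, `j < N`, are the Satake parameters of `π` in `r` at the
unramified places `v`, `q` is the number of elements of the field of constants. Two facts are known: by V. Lafforgue's
theorem (the Satake parameters are those of a semisimple Galois representation), L. Lafforgue's theorem for `GL_n` and
Deligne's theory of weights the absolute values are `q_v ^ (w j)` with exponents independent of `v` (`purity`), and since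
`π_v` is unitary the parameters are stable under `z ↦ 1 / conj z` (`unitarity`).

* The number `bad` of the parameters of absolute value `≠ 1` is the same at all places.
* It is at most `2 (N - d)`, where `d` is the number of different unit parts `z / |z|` of the parameters at ANY ONE place.
* If all parameters at one place have absolute value `1` then this is so at all places.
* If at one place the number `disc = ∏_{j<k} (α_j conj α_k - conj α_j α_k)²` is not `0`, then all parameters at all places have
  absolute value `1`. So if Ramanujan's conjecture fails at one place then two parameters have proportional
  values (by a real factor) at every unramified place.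
* If the representation `r` is such that the number of bad parameters is `0` or at least `b` (for split `G_2` and `N = 7` one
  has `b = 4`, for `E_8` and the adjoint representation, `N = 248`, `b = 114`), then it is enough that
  `2 N < b + 2 d` at one place (`d ≥ 6` for `G_2`, `d ≥ 192` for `E_8`).
-/

set_option autoImplicit false

open Finset

namespace Pool.Agent.Results.MP_eadad4_nt.OnePlaceCertificate

open Pool.Agent.X298.RP

theorem result {V : Type} {N : ℕ} (P : Parameters V N) :
    (∀ v v', P.bad v = P.bad v') ∧
    (∀ v v', P.bad v + 2 * P.distinct v' ≤ 2 * N) ∧
    (∀ v, (∀ j, ‖P.α v j‖ = 1) → ∀ v' j, ‖P.α v' j‖ = 1) ∧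
    (∀ v, P.disc v ≠ 0 → ∀ v' j, ‖P.α v' j‖ = 1) ∧
    ∀ b v v', (P.bad v = 0 ∨ b ≤ P.bad v) → 2 * N < b + 2 * P.distinct v' → ∀ v'' j, ‖P.α v'' j‖ = 1 :=
  main P

end Pool.Agent.Results.MP_eadad4_nt.OnePlaceCertificate
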